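import Pool.Agent.Work.MP_02e829_ps.Motion2
import Pool.Agent.Work.MP_02e829_ps.B_ANL
import Pool.Agent.Work.MP_02e829_ps.B_DENS
import Pool.Agent.Work.MP_02e829_ps.B_FLAT
import Pool.Agent.Work.MP_02e829_ps.B_FRML
import Pool.Agent.Work.MP_02e829_ps.B_GRD
import Pool.Agent.Work.MP_02e829_ps.B_HGT
import Pool.Agent.Work.MP_02e829_ps.B_KGM
import Pool.Agent.Work.MP_02e829_ps.B_KGU
import Pool.Agent.Work.MP_02e829_ps.B_LEV
import Pool.Agent.Work.MP_02e829_ps.B_LOOP
import Pool.Agent.Work.MP_02e829_ps.B_LSM
import Pool.Agent.Work.MP_02e829_ps.B_LSU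
import Pool.Agent.Work.MP_02e829_ps.B_MT

/-!
# Closed surfaces cannot be bent so that parallel sections stay plane and parallel

`S` is a compact connected surface (a Hausdorff manifold of dimension two without boundary, of
class `C²`), `f t : S → E³`, `0 ≤ t ≤ 1`, is a family of immersions of class `C²` inducing the same
metric, continuous in `t` together with the first derivatives at every point, and `A t` is a
continuous family of motions of the space.  Suppose that the deformation `A t ∘ f t` carries every
connected subset of every horizontal section of the surface into a horizontal plane.  Then the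
deformation is trivial: every `f t` is congruent to `f 0`.
-/

open Set Manifold
open scoped ContDiff

set_option autoImplicit false

universe w

namespace Pool.Agent.Results.MP_02e829_gt.ParallelSections

/-- The plane, model space of surfaces. -/
abbrev Plane := EuclideanSpace ℝ (Fin 2)

/-- Euclidean three-space. -/
abbrev Space := EuclideanSpace ℝ (Fin 3)

/-- The height of a point of the space (its third coordinate). -/
def height (x : Space) : ℝ := x 2

variable {S : Type w} [TopologicalSpace S] [ChartedSpace Plane S]

/-- The map `f` is of class `C²`. -/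
def IsC2 (f : S → Space) : Prop := ContMDiff (𝓡 2) (𝓡 3) 2 f

/-- The differential of `f` at `p` (the tangent space of the surface at `p` is identified with the
plane as in Mathlib, by the preferred chart at `p`). -/
noncomputable def differential (f : S → Space) (p : S) : Plane →L[ℝ] Space :=
  mfderiv (𝓡 2) (𝓡 3) f p

/-- The vector `df_p(v)`. -/
noncomputable def dvec (f : S → Space) (p : S) (v : Plane) : Space := differential f p v

/-- The metric induced by `f` (first fundamental form). -/
noncomputable def firstForm (f : S → Space) (p : S) (v w : Plane) : ℝ :=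
  inner ℝ (dvec f p v) (dvec f p w)

/-- `f t`, `0 ≤ t ≤ 1`, is an isometric deformation through immersions of class `C²`, continuous
in `t` together with the first derivatives at each point of the surface, and `A t` is a continuous
family of isometries of the space, such that every connected set `C` of points of the surface, at
constant height under `A 0 ∘ f 0`, is at constant height under `A t ∘ f t`. -/
structure SectionPreserving (f : ℝ → S → Space) (A : ℝ → Space ≃ᵢ Space) : Prop where
  smooth : ∀ t ∈ Icc (0 : ℝ) 1, IsC2 (f t)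
  immersion : ∀ t ∈ Icc (0 : ℝ) 1, ∀ p, Function.Injective (dvec (f t) p)
  isometric : ∀ t ∈ Icc (0 : ℝ) 1, firstForm (f t) = firstForm (f 0)
  continuous : ∀ p, ContinuousOn (fun t => f t p) (Icc 0 1)
  continuous_dvec : ∀ p v, ContinuousOn (fun t => dvec (f t) p v) (Icc 0 1)
  continuous_motion : ∀ x, ContinuousOn (fun t => A t x) (Icc 0 1)
  sections : ∀ t ∈ Icc (0 : ℝ) 1, ∀ C : Set S, IsPreconnected C →
    (∀ p ∈ C, ∀ q ∈ C, height (A 0 (f 0 p)) = height (A 0 (f 0 q))) →
    ∀ p ∈ C, ∀ q ∈ C, height (A t (f t p)) = height (A t (f t q))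

theorem result {S : Type w} [TopologicalSpace S] [ChartedSpace Plane S]
    [IsManifold (𝓡 2) 2 S] [T2Space S] [CompactSpace S] [ConnectedSpace S]
    (f : ℝ → S → Space) (A : ℝ → Space ≃ᵢ Space) (h : SectionPreserving f A) :
    ∀ t ∈ Icc (0 : ℝ) 1, ∃ B : Space ≃ᵢ Space, ∀ p, f t p = B (f 0 p) := by
  intro t ht
  have hfam : Pool.PSC.Fam (fun t p => A t (f t p)) :=
    Pool.PSC.fam_motion h.smooth (h.immersion 0 Pool.RL.zero_mem') h.isometric h.continuous
      h.continuous_dvec h.continuous_motion
  have hsec : Pool.PSC.HSec (fun t p => A t (f t p)) := h.sections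
  have loop := Pool.PSC.blk_LOOP.{w} (Pool.PSC.blk_LSM Pool.PSC.blk_LSU) Pool.PSC.blk_FRML
  have lev := Pool.PSC.blk_LEV loop Pool.PSC.blk_GRD (Pool.PSC.blk_KGM Pool.PSC.blk_KGU)
    Pool.PSC.blk_MT (Pool.PSC.blk_FLAT Pool.PSC.blk_ANL)
  have dens := Pool.PSC.blk_DENS S _ hfam hsec (fun p hp => lev S _ hfam hsec p hp)
  obtain ⟨B, hB⟩ := Pool.PSC.blk_HGT S _ hfam dens t ht
  refine ⟨((A 0).trans B).trans (A t).symm, fun p => ?_⟩
  have h1 := hB p
  change f t p = (A t).symm (B (A 0 (f 0 p)))
  rw [← h1, IsometryEquiv.symm_apply_apply]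

end Pool.Agent.Results.MP_02e829_gt.ParallelSections
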