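import Pool.Agent.Work.MP_02e829_rl.Motion

/-!
# Closed surfaces cannot be bent along straight lines

`S` is a compact connected surface (a manifold of dimension two without boundary, of class `C²`),
`f t : S → E³`, `0 ≤ t ≤ 1`, is a family of immersions of class `C²` inducing the same metric,
continuous in `t` together with the first derivatives at every point, and `A t` is a continuous
family of motions of the space.  If every point `p` of the surface moves on a straight line after
the motions, i.e. the points `A t (f t p)`, `0 ≤ t ≤ 1`, are collinear (the line and the speed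
depend on `p` in any way), then the deformation is trivial: `A t ∘ f t` is a translate of
`A 0 ∘ f 0`.
-/

open Set Manifold
open scoped ContDiff

set_option autoImplicit false

universe w

namespace Pool.Agent.Results.MP_02e829_gt.Rectilinear

/-- The plane, model space of surfaces. -/
abbrev Plane := EuclideanSpace ℝ (Fin 2)

/-- Euclidean three-space. -/
abbrev Space := EuclideanSpace ℝ (Fin 3)

variable {S : Type w} [TopologicalSpace S] [ChartedSpace Plane S]

/-- The map `f` is of class `C²`. -/
def IsC2 (f : S → Space) : Prop := ContMDiff (𝓡 2) (𝓡 3) 2 f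

/-- The differential of `f` at `p` (the tangent space of the surface at `p` is identified with the
plane as in Mathlib, by the preferred chart at `p`). -/
noncomputable def differential (f : S → Space) (p : S) : Plane →L[ℝ] Space :=
  mfderiv (𝓡 2) (𝓡 3) f p

/-- The vector `df_p(v)`. -/
noncomputable def dvec (f : S → Space) (p : S) (v : Plane) : Space := differential f p v

/-- The metric induced by `f` (first fundamental form). -/
noncomputable def firstForm (f : S → Space) (p : S) (v w : Plane) : ℝ :=
  inner ℝ (dvec f p v) (dvec f p w)

/-- `f t`, `0 ≤ t ≤ 1`, is an isometric deformation through immersions of class `C²`, continuous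
in `t` together with the first derivatives at each point of the surface, and `A t` is a continuous
family of isometries of the space, such that after these isometries every point of the surface
moves on a straight line. -/
structure RectilinearDeformation (f : ℝ → S → Space) (A : ℝ → Space ≃ᵢ Space) : Prop where
  smooth : ∀ t ∈ Icc (0 : ℝ) 1, IsC2 (f t)
  immersion : ∀ t ∈ Icc (0 : ℝ) 1, ∀ p, Function.Injective (dvec (f t) p)
  isometric : ∀ t ∈ Icc (0 : ℝ) 1, firstForm (f t) = firstForm (f 0)
  continuous : ∀ p, ContinuousOn (fun t => f t p) (Icc 0 1)
  continuous_dvec : ∀ p v, ContinuousOn (fun t => dvec (f t) p v) (Icc 0 1)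
  continuous_motion : ∀ x, ContinuousOn (fun t => A t x) (Icc 0 1)
  rectilinear : ∀ p, Collinear ℝ ((fun t => A t (f t p)) '' Icc 0 1)

theorem result {S : Type w} [TopologicalSpace S] [ChartedSpace Plane S]
    [IsManifold (𝓡 2) 2 S] [CompactSpace S] [ConnectedSpace S]
    (f : ℝ → S → Space) (A : ℝ → Space ≃ᵢ Space) (h : RectilinearDeformation f A) :
    ∀ t ∈ Icc (0 : ℝ) 1, (∃ v : Space, ∀ p, A t (f t p) = A 0 (f 0 p) + v) ∧
      ∃ B : Space ≃ᵢ Space, ∀ p, f t p = B (f 0 p) := by
  intro t ht
  obtain ⟨v, hv⟩ := (Pool.RL.rect_motion h.smooth (h.immersion 0 Pool.RL.zero_mem') h.isometric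
    h.continuous h.continuous_dvec h.continuous_motion h.rectilinear).trivial ht
  refine ⟨⟨v, hv⟩, ((A 0).trans (IsometryEquiv.addRight v)).trans (A t).symm, fun p => ?_⟩
  have h1 := hv p
  change f t p = (A t).symm (A 0 (f 0 p) + v)
  rw [← h1, IsometryEquiv.symm_apply_apply]

end Pool.Agent.Results.MP_02e829_gt.Rectilinear
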