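import Pool.Agent.Work.MP_02e829_tr.All3
import Pool.Agent.Work.MP_02e829_tr.Mv

/-!
# Closed surfaces made of convex pieces and hyperbolic tubes joined at troughs cannot be bent

`S` is a compact surface (a Hausdorff manifold of dimension two without boundary, of
class `C⁴`), `f t : S → E³`, `0 ≤ t ≤ 1`, is a family of immersions of class `C⁴` inducing the same
metric, continuous in the `C²` topology and locally bounded in the `C⁴` topology (in particular
every isometric deformation of class `C⁴`).  A trough of `f 0` is a closed curve along which the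
surface touches a plane and which is a convex curve of this plane, such that the surface is curved
across the curve.

A convex piece is an open connected set of points of positive curvature whose boundary lies in at
most seven troughs (or in countably many, when a projective vector field of the space is nowhere
tangent to the surface along the closure of the piece).  A hyperbolic tube is the set
`0 < x₁ < 1` in annular coordinates starting at a trough `x₁ = 0`, when the normal curvatures of
the coordinate curves have opposite signs there.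

THEOREM. If `O` is an open connected set in which the union of the convex pieces and the hyperbolic
tubes of `f 0` is dense, then `f t` is congruent to `f 0` on the closure of `O`.  So every piece and
every tube moves as a rigid body, and if they are dense in `S`, then every `f t` is congruent to
`f 0`.
-/

open Set Manifold Matrix
open scoped ContDiff Real

set_option autoImplicit false

universe w

namespace Pool.Agent.Results.MP_02e829_gt.TroughSurfaces

/-- The plane, model space of surfaces. -/
abbrev Plane := EuclideanSpace ℝ (Fin 2)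

/-- Euclidean three-space. -/
abbrev Space := EuclideanSpace ℝ (Fin 3)

/-- `A` is a proper motion of the space: `A x = R x + b` with a rotation `R`. -/
def Motion (A : Space → Space) : Prop :=
  ∃ (R : Matrix (Fin 3) (Fin 3) ℝ) (b : Space), Rᵀ * R = 1 ∧ R.det = 1 ∧
    ∀ x i, A x i = ∑ j, R i j * x j + b i

/-- The partial derivative of `F` at `x` in the direction of the coordinate `i`. -/
noncomputable def partialD (i : Fin 2) (F : Plane → Space) (x : Plane) : Space :=
  fderiv ℝ F x (EuclideanSpace.single i (1 : ℝ))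

/-- The unit vector with angle `a` in the plane of `e₁, e₂`. -/
noncomputable def unit (e₁ e₂ : Space) (a : ℝ) : Space := Real.cos a • e₁ + Real.sin a • e₂

/-- The strip `|x₁| < 1` of the plane (coordinates `x₀, x₁`). -/
def Strip : Set Plane := {x | |x 1| < 1}

/-- The point `(s, 0)` of the plane. -/
noncomputable def pt (s : ℝ) : Plane := s • EuclideanSpace.single 0 (1 : ℝ)

/-- `φ` is the angle of the tangent of a closed convex curve: `φ' > 0` and
`φ (s + 2π) = φ s + 2π`. -/
def TangentAngle (φ : ℝ → ℝ) : Prop :=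
  ContDiff ℝ 3 φ ∧ (∀ s, 0 < deriv φ s) ∧ ∀ s, φ (s + 2 * π) = φ s + 2 * π

/-- Along the line `x₁ = 0` the map `F` touches the plane of the orthonormal vectors `e₁, e₂`: `∂₀ F`
is a positive multiple of the unit vector with angle `φ`, `∂₁ F` is in the plane, on the inner side,
and `∂₁∂₁ F` is not in the plane. -/
structure Touches (F : Plane → Space) (e₁ e₂ : Space) (φ : ℝ → ℝ) : Prop where
  orthonormal : Orthonormal ℝ ![e₁, e₂]
  angle : TangentAngle φ
  along : ∀ s, ∃ ρ : ℝ, 0 < ρ ∧ partialD 0 F (pt s) = ρ • unit e₁ e₂ (φ s)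
  across : ∀ s, ∃ lam mu : ℝ, 0 < mu ∧
    partialD 1 F (pt s) = lam • unit e₁ e₂ (φ s) + mu • unit e₁ e₂ (φ s + π / 2)
  bend : ∀ s, partialD 1 (partialD 1 F) (pt s) ∉ Submodule.span ℝ {e₁, e₂}

/-- The derivatives of order `k` of the maps `F t` are jointly continuous on `[0, 1] × U`. -/
def JetContinuousOn (k : ℕ) (F : ℝ → Plane → Space) (U : Set Plane) : Prop :=
  ContinuousOn (fun z : ℝ × Plane => iteratedFDeriv ℝ k (F z.1) z.2) (Icc 0 1 ×ˢ U)

/-- The derivatives of order `≤ n` of the maps `F t`, `t ∈ [0, 1]`, are bounded near `x`, uniformly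
in `t`. -/
def JetBoundedNear (n : ℕ) (F : ℝ → Plane → Space) (x : Plane) : Prop :=
  ∃ M : ℝ, ∀ᶠ y in nhds x, ∀ t ∈ Icc (0 : ℝ) 1, ∀ k ≤ n, ‖iteratedFDeriv ℝ k (F t) y‖ ≤ M

section surface

variable {S : Type w} [TopologicalSpace S] [ChartedSpace Plane S]

/-- The map `f` is of class `C⁴`. -/
def Smooth (f : S → Space) : Prop := ContMDiff (𝓡 2) (𝓡 3) 4 f

/-- The differential of `f` at `p` (the tangent space of the surface at `p` is identified with the
plane as in Mathlib, by the preferred chart at `p`). -/
noncomputable def differential (f : S → Space) (p : S) : Plane →L[ℝ] Space :=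
  mfderiv (𝓡 2) (𝓡 3) f p

/-- The vector `df_p(v)`. -/
noncomputable def dvec (f : S → Space) (p : S) (v : Plane) : Space := differential f p v

/-- The metric induced by `f` (first fundamental form). -/
noncomputable def firstForm (f : S → Space) (p : S) (v w : Plane) : ℝ :=
  inner ℝ (dvec f p v) (dvec f p w)

/-- The map `f` in the inverse of the chart at `p`. -/
noncomputable def inChart (f : S → Space) (p : S) (x : Plane) : Space :=
  f ((extChartAt (𝓡 2) p).symm x)

/-- The domain of the inverse of the chart at `p`. -/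
def chartDomain (p : S) : Set Plane := (extChartAt (𝓡 2) p).target

/-- `f t`, `0 ≤ t ≤ 1`, is an isometric deformation through immersions of class `C⁴`: in the charts
the derivatives of order `≤ 2` (values included) are jointly continuous in `t` and the point, and
those of order `≤ 4` are bounded near every point, uniformly in `t`. -/
structure Deformation (f : ℝ → S → Space) : Prop where
  smooth : ∀ t ∈ Icc (0 : ℝ) 1, Smooth (f t)
  immersion : ∀ t ∈ Icc (0 : ℝ) 1, ∀ p, Function.Injective (dvec (f t) p)
  isometric : ∀ t ∈ Icc (0 : ℝ) 1, firstForm (f t) = firstForm (f 0)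
  continuous : ∀ (p : S) (k : ℕ), k ≤ 2 →
    JetContinuousOn k (fun t => inChart (f t) p) (chartDomain p)
  bounded : ∀ (p : S), ∀ x ∈ chartDomain p, JetBoundedNear 4 (fun t => inChart (f t) p) x

/-- The differential of `Φ` at `x`, in the chart of the surface at `Φ x`. -/
noncomputable def chartDifferential (Φ : Plane → S) (x : Plane) : Plane →L[ℝ] Plane :=
  fderiv ℝ (fun y => extChartAt (𝓡 2) (Φ x) (Φ y)) x

/-- The map `Φ` is of class `C⁴` on the strip. -/
def SmoothOnStrip (Φ : Plane → S) : Prop := ContMDiffOn (𝓡 2) (𝓡 2) 4 Φ Strip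

/-- Coordinates of class `C⁴` on an annulus of the surface: a local diffeomorphism of the strip
which is `2π`-periodic in `x₀`. -/
structure Annulus (Φ : Plane → S) : Prop where
  smooth : SmoothOnStrip Φ
  regular : ∀ x ∈ Strip, Function.Injective (chartDifferential Φ x)
  periodic : ∀ x ∈ Strip, Φ (x + pt (2 * π)) = Φ x

/-- The closed curve `s ↦ Φ (s, 0)` is a trough of `f`. -/
def Trough (f : S → Space) (Φ : Plane → S) : Prop :=
  Annulus Φ ∧ ∃ (e₁ e₂ : Space) (φ : ℝ → ℝ), Touches (fun x => f (Φ x)) e₁ e₂ φ

/-- The curve of the trough. -/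
def curve (Φ : Plane → S) : Set S := {p | ∃ s : ℝ, p = Φ (pt s)}

/-- Positive curvature at `p`: near `p` the surface is in a ball with `f p` on its boundary. -/
def PositiveCurvature (f : S → Space) (p : S) : Prop :=
  ∃ n : Space, ∀ᶠ q in nhds p, ‖f q - f p‖ ^ 2 ≤ inner ℝ (f q - f p) n

/-- Some projective vector field `X(x) = c + L x + ⟨k, x⟩ x` is nowhere tangent to the surface `f`
at the points of `P`. -/
def Transversal (f : S → Space) (P : Set S) : Prop :=
  ∃ (c : Space) (L : Space →ₗ[ℝ] Space) (k : Space), ∀ p ∈ P, ∀ v,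
    dvec f p v ≠ c + L (f p) + (inner ℝ k (f p) : ℝ) • f p

/-- A convex piece: `C` is open, connected, of positive curvature, and its boundary is in at most
seven troughs, or in countably many troughs if some projective vector field is transversal. -/
structure ConvexPiece (f : S → Space) (C : Set S) : Prop where
  isOpen : IsOpen C
  connected : IsPreconnected C
  positive : ∀ p ∈ C, PositiveCurvature f p
  boundary : ∃ (ι : Type) (Φ : ι → Plane → S), (∀ i, Trough f (Φ i)) ∧
    frontier C ⊆ ⋃ i, curve (Φ i) ∧
    (ENat.card ι ≤ 7 ∨ (Countable ι ∧ Transversal f (closure C)))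

/-- The part `0 < x₁ < 1` of the coordinates `Φ` is hyperbolic: for every normal vector `n ≠ 0` of
the surface the normal components of `∂₀∂₀ (f ∘ Φ)` and `∂₁∂₁ (f ∘ Φ)` have opposite signs. -/
def Hyperbolic (f : S → Space) (Φ : Plane → S) : Prop :=
  ∀ x ∈ Strip, 0 < x 1 → ∀ n : Space, n ≠ 0 →
    inner ℝ (partialD 0 (fun y => f (Φ y)) x) n = 0 →
    inner ℝ (partialD 1 (fun y => f (Φ y)) x) n = 0 →
    inner ℝ (partialD 0 (partialD 0 fun y => f (Φ y)) x) n *
      inner ℝ (partialD 1 (partialD 1 fun y => f (Φ y)) x) n < 0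

/-- A hyperbolic tube starting at a trough. -/
def HyperbolicTube (f : S → Space) (C : Set S) : Prop :=
  ∃ Φ : Plane → S, Trough f Φ ∧ Hyperbolic f Φ ∧ C = Φ '' {x | x ∈ Strip ∧ 0 < x 1}

end surface

theorem result {S : Type w} [TopologicalSpace S] [ChartedSpace Plane S]
    [IsManifold (𝓡 2) 4 S] [T2Space S] [CompactSpace S]
    (f : ℝ → S → Space) (hf : Deformation f) (O : Set S) (hO : IsOpen O) (hO' : IsPreconnected O)
    (hd : O ⊆ closure (⋃₀ {C | ConvexPiece (f 0) C ∨ HyperbolicTube (f 0) C})) :
    ∀ t ∈ Icc (0 : ℝ) 1, ∃ A : Space → Space, Motion A ∧ ∀ p ∈ closure O, f t p = A (f 0 p) := by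
  have hD : Pool.TRG.Dfm f := ⟨hf.smooth, hf.immersion,
    fun t ht p v w => congrFun (congrFun (congrFun (hf.isometric t ht) p) v) w,
    hf.continuous, hf.bounded⟩
  have key : ∀ Φ : Plane → S, Trough (f 0) Φ →
      ∃ (e₁ e₂ : Space) (φ : ℝ → ℝ), Pool.TRG.Tro 4 (f 0) Φ e₁ e₂ φ := by
    rintro Φ ⟨hA, e₁, e₂, φ, hT⟩
    refine ⟨e₁, e₂, φ, Pool.TRG.ann_of (by norm_num) hA.smooth hA.regular hA.periodic,
      ⟨hT.angle.1, hT.angle.2.1, hT.angle.2.2⟩, hT.orthonormal, hT.along, ?_, hT.bend⟩
    intro s
    obtain ⟨lam, mu, hmu, h⟩ := hT.across s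
    refine ⟨lam, mu, hmu, ?_⟩
    rw [unit, unit, Real.cos_add_pi_div_two, Real.sin_add_pi_div_two] at h
    exact h
  have hP : ∀ C : Set S, ConvexPiece (f 0) C ∨ HyperbolicTube (f 0) C →
      Pool.TRG.CPiece (f 0) C ∨ Pool.TRG.HPiece (f 0) C := by
    rintro C (hC | ⟨Φ, hΦ, hH, hC⟩)
    · left
      obtain ⟨ι, Φ, hΦ, hfr, hι⟩ := hC.boundary
      refine ⟨hC.isOpen, hC.connected, hC.positive, ι, Φ, fun i => key _ (hΦ i), ?_, ?_⟩
      · intro p hp
        obtain ⟨i, hi⟩ := mem_iUnion.1 (hfr hp)
        exact ⟨i, hi⟩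
      · refine hι.imp_right fun hX => ⟨hX.1, ?_⟩
        obtain ⟨c, L, k, hX⟩ := hX.2
        exact Pool.TRG.transv_of c L k hX
    · right
      obtain ⟨e₁, e₂, φ, hT⟩ := key Φ hΦ
      exact ⟨Φ, e₁, e₂, φ, hT, hH, hC⟩
  intro t ht
  have hd' : O ⊆ closure (⋃₀ {C | Pool.TRG.CPiece (f 0) C ∨ Pool.TRG.HPiece (f 0) C}) := by
    refine hd.trans (closure_mono ?_)
    rintro q ⟨C, hC, hqC⟩
    exact ⟨C, hP C hC, hqC⟩
  obtain ⟨A, hA, hAf⟩ := Pool.TRG.all_mainG f hD O hO hO' hd' t ht
  exact ⟨A, Pool.TRG.motion_of A hA, hAf⟩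

end Pool.Agent.Results.MP_02e829_gt.TroughSurfaces
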